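import Mathlib

set_option autoImplicit false

namespace Pool.Agent.Results.MP_48b6db_an.Yes

open Set Filter Topology Metric

variable (𝕜 : Type) [RCLike 𝕜] {X : Type} [NormedAddCommGroup X] [NormedSpace 𝕜 X]

/-- weakly open subsets -/
def WOpen (U : Set X) : Prop := IsOpen (toWeakSpace 𝕜 X '' U)

/-- super Delta-points of the closed unit ball -/
def SuperDelta (x : X) : Prop :=
  ‖x‖ ≤ 1 ∧ ∀ U, WOpen 𝕜 U → x ∈ U → IsLUB ((fun y => ‖x - y‖) '' (closedBall 0 1 ∩ U)) (1 + ‖x‖)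

theorem result [CompleteSpace X] (x : X) (h1 : ‖x‖ = 1) (h : SuperDelta 𝕜 x) (r : ℝ) (r0 : 0 < r)
    (r1 : r < 1) : SuperDelta 𝕜 ((r : 𝕜) • x) := by
  have n : ∀ (s : ℝ) (y : X), 0 ≤ s → ‖(s : 𝕜) • y‖ = s * ‖y‖ := fun s y s0 => by
    rw [norm_smul, RCLike.norm_ofReal, abs_of_nonneg s0]
  have e : ‖(r : 𝕜) • x‖ = r := by rw [n _ _ r0.le, h1, mul_one]
  refine ⟨by linarith, fun U hU hx => ⟨?_, fun b hb => ?_⟩⟩
  · rintro _ ⟨y, ⟨a, -⟩, rfl⟩
    exact (norm_sub_le _ _).trans (by linarith [mem_closedBall_zero_iff.1 a])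
  let g : X → X := fun y => (((1 + r) / 2 : ℝ) : 𝕜) • y - (((1 - r) / 2 : ℝ) : 𝕜) • x
  have : 1 + ‖x‖ ≤ b / ((1 + r) / 2) := (h.2 (g ⁻¹' U) ?_ ?_).2 ?_
  · rw [h1, le_div_iff₀ (by linarith)] at this
    linarith
  · have c : Continuous fun y : WeakSpace 𝕜 X =>
        (((1 + r) / 2 : ℝ) : 𝕜) • y - (((1 - r) / 2 : ℝ) : 𝕜) • toWeakSpace 𝕜 X x := by fun_prop
    unfold WOpen
    convert hU.preimage c
    ext y
    obtain ⟨y, rfl⟩ := (toWeakSpace 𝕜 X).surjective y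
    simp only [mem_preimage, ← map_smul, ← map_sub, (toWeakSpace 𝕜 X).injective.mem_set_image, g]
  · rwa [mem_preimage, show g x = (r : 𝕜) • x by simp only [g]; push_cast; module]
  rintro _ ⟨y, ⟨a, c⟩, rfl⟩
  rw [le_div_iff₀ (by linarith), mul_comm, ← n _ _ (by linarith)]
  refine le_trans (le_of_eq ?_) (hb ⟨g y, ⟨mem_closedBall_zero_iff.2 ((norm_sub_le _ _).trans ?_), c⟩, rfl⟩)
  · congr 1
    simp only [g]
    push_cast
    module
  rw [n _ _ (by linarith), n _ _ (by linarith), h1]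
  nlinarith [mem_closedBall_zero_iff.1 a]

end Pool.Agent.Results.MP_48b6db_an.Yes
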